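import Mathlib
import Pool.Agent.N503.WI2
import Pool.Agent.Y503.RB.All

/-!
The hyperbolic mean curvature of slice discs in the ball: densities.
-/

set_option autoImplicit false

namespace Pool.Agent.L0h18.HW

open scoped ContDiff RealInnerProductSpace ENNReal NNReal Topology
open MeasureTheory Set Metric Filter
open Pool.Agent.Y503.RB Pool.Agent.N503.WI

/-- The mean curvature vector at `φ z` with respect to the hyperbolic metric
`4 |dx|² / (1 - |x|²)²` of the unit ball. It is multiplied by the factor `2 / (1 - |x|²)`, so that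
its Euclidean length is the hyperbolic length of the mean curvature vector, and for every Euclidean
unit normal vector `n` the number `⟪hypCurv φ z, n⟫` is the hyperbolic mean curvature (half of the
sum of the principal curvatures) in the direction of `n`. -/
noncomputable def hypCurv (φ : ℂ → E4) (z : ℂ) : E4 :=
  ((1 - ‖φ z‖ ^ 2) / 2) • meanCurv φ z -
    (LinearMap.range (fderiv ℝ φ z).toLinearMap)ᗮ.starProjection (φ z)

/-- Hyperbolic area element. -/
noncomputable def hypArea (φ : ℂ → E4) (z : ℂ) : ℝ :=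
  4 * √(fffDet φ z) / (1 - ‖φ z‖ ^ 2) ^ 2

/-- Density of the energy in the direction `n`: `(rad / (1 - rad))³ ((h - 1)_+)² dA`, where `h` is the
hyperbolic mean curvature in the direction `n` and `dA` the hyperbolic area element. -/
noncomputable def densDir (φ : ℂ → E4) (n : E4) (z : ℂ) : ℝ :=
  (rad (φ z) n / (1 - rad (φ z) n)) ^ 3 * (max (⟪hypCurv φ z, n⟫ - 1) 0) ^ 2 * hypArea φ z

/-- Its integral over the circle of unit normal vectors. (All `L` in the supremum give the same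
value.) -/
noncomputable def dirAt (φ : ℂ → E4) (z : ℂ) : ℝ≥0∞ :=
  ⨆ (L : ℂ →ₗᵢ[ℝ] E4) (_ : ∀ w v : ℂ, ⟪L w, d1 φ v z⟫ = 0),
    ∫⁻ θ in Ico 0 (2 * Real.pi),
      ENNReal.ofReal (densDir φ (L ⟨Real.cos θ, Real.sin θ⟩) z)

/-- `e^(3d) ((|H| - 1)_+)² dA`, where `d` is the hyperbolic distance from the origin, `H` the
hyperbolic mean curvature vector and `dA` the hyperbolic area element. -/
noncomputable def densHyp (φ : ℂ → E4) (z : ℂ) : ℝ :=
  ((1 + ‖φ z‖) / (1 - ‖φ z‖)) ^ 3 * (max (‖hypCurv φ z‖ - 1) 0) ^ 2 * hypArea φ z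

/-- Energy of a surface in the unit ball: infimum over all countable families of parametrised
pieces of `F` which cover the part of `F` in the open ball. -/
noncomputable def surfE (F : Set E4) : ℝ≥0∞ :=
  ⨅ (φ : ℕ → ℂ → E4) (U : ℕ → Set ℂ) (A : ℕ → Set ℂ)
    (_ : (∀ i, Patch (φ i) (U i) ∧ φ i '' U i ⊆ F ∧ MeasurableSet (A i) ∧ A i ⊆ U i) ∧
      F ∩ ball 0 1 ⊆ ⋃ i, φ i '' A i),
    ∑' i, ∫⁻ z in A i, ENNReal.ofReal (densHyp (φ i) z)

/-! ### Elementary facts -/

theorem inner_hypCurv {φ : ℂ → E4} {z : ℂ} {n : E4} (hn : ∀ v : ℂ, ⟪n, d1 φ v z⟫ = 0) :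
    ⟪hypCurv φ z, n⟫ = (1 - ‖φ z‖ ^ 2) / 2 * ⟪meanCurv φ z, n⟫ - ⟪φ z, n⟫ := by
  have hmem : n ∈ (LinearMap.range (fderiv ℝ φ z).toLinearMap)ᗮ := by
    rw [Submodule.mem_orthogonal]
    rintro x ⟨v, rfl⟩
    rw [real_inner_comm]
    exact hn v
  unfold hypCurv
  rw [inner_sub_left, real_inner_smul_left, Submodule.inner_starProjection_left_eq_right,
    Submodule.starProjection_eq_self_iff.2 hmem]

theorem inner_bd {p n : E4} (hn : ‖n‖ = 1) : -‖p‖ ≤ ⟪p, n⟫ := by
  have h := abs_real_inner_le_norm p n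
  rw [hn, mul_one] at h
  exact (abs_le.1 h).1

theorem one_add_pos {p n : E4} (hp : ‖p‖ < 1) (hn : ‖n‖ = 1) : 0 < 1 + ⟪p, n⟫ := by
  have := inner_bd (p := p) hn
  linarith

theorem rad_pos {p n : E4} (hp : ‖p‖ < 1) (hn : ‖n‖ = 1) : 0 < rad p n := by
  have h1 := one_add_pos hp hn
  have h2 : 0 < 1 - ‖p‖ ^ 2 := by nlinarith [norm_nonneg p]
  unfold rad
  positivity

theorem rad_le {p n : E4} (hp : ‖p‖ < 1) (hn : ‖n‖ = 1) : rad p n ≤ (1 + ‖p‖) / 2 := by
  have h1 := one_add_pos hp hn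
  have h2 := inner_bd (p := p) hn
  have h0 := norm_nonneg p
  unfold rad
  rw [div_le_div_iff₀ (by positivity) (by norm_num)]
  have : 0 ≤ (1 + ‖p‖) * (‖p‖ + ⟪p, n⟫) := mul_nonneg (by linarith) (by linarith)
  nlinarith

theorem one_sub_rad_pos {p n : E4} (hp : ‖p‖ < 1) (hn : ‖n‖ = 1) : 0 < 1 - rad p n := by
  have := rad_le hp hn
  linarith

theorem quot_le {p n : E4} (hp : ‖p‖ < 1) (hn : ‖n‖ = 1) :
    rad p n / (1 - rad p n) ≤ (1 + ‖p‖) / (1 - ‖p‖) := by
  have h1 := one_sub_rad_pos hp hn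
  have h2 := rad_le hp hn
  have h3 : 0 < 1 - ‖p‖ := by linarith
  rw [div_le_div_iff₀ h1 h3]
  have h0 := norm_nonneg p
  nlinarith

theorem quot_nonneg {p n : E4} (hp : ‖p‖ < 1) (hn : ‖n‖ = 1) :
    0 ≤ rad p n / (1 - rad p n) :=
  (div_pos (rad_pos hp hn) (one_sub_rad_pos hp hn)).le

theorem hypArea_nonneg (φ : ℂ → E4) (z : ℂ) : 0 ≤ hypArea φ z := by
  unfold hypArea
  positivity

/-! ### The density of the horospherical curvature -/

/-- trace of `exc`. -/
theorem trace_exc {φ : ℂ → E4} {z : ℂ} (hi : Function.Injective (fderiv ℝ φ z)) {n : E4}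
    (hn : ∀ v : ℂ, ⟪n, d1 φ v z⟫ = 0) :
    fff φ 1 1 z * exc φ n Complex.I Complex.I z - 2 * fff φ 1 Complex.I z * exc φ n 1 Complex.I z +
      fff φ Complex.I Complex.I z * exc φ n 1 1 z =
      2 * fffDet φ z * (rad (φ z) n * ⟪meanCurv φ z, n⟫ - 1) := by
  have hd := fffDet_pos hi
  rw [inner_meanCurv hn]
  unfold exc
  field_simp
  unfold fffDet
  ring

theorem dens_le {φ : ℂ → E4} {z : ℂ} (hi : Function.Injective (fderiv ℝ φ z)) (hp : ‖φ z‖ < 1)
    {n : E4} (hn1 : ‖n‖ = 1) (hn : ∀ v : ℂ, ⟪n, d1 φ v z⟫ = 0) :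
    dens φ n z ≤ densDir φ n z := by
  have hq := quot_nonneg hp hn1
  have hA := hypArea_nonneg φ z
  unfold dens
  split_ifs with hI
  swap
  · unfold densDir
    positivity
  have hd := fffDet_pos hi
  have hE : 0 < fff φ 1 1 z := by
    unfold fff
    rw [real_inner_self_eq_norm_sq]
    have : d1 φ 1 z ≠ 0 := by
      intro h
      have h0 : fderiv ℝ φ z 1 = fderiv ℝ φ z 0 := by rw [map_zero]; exact h
      exact one_ne_zero (hi h0)
    positivity
  have hd' : 0 < fff φ 1 1 z * fff φ Complex.I Complex.I z - fff φ 1 Complex.I z ^ 2 := hd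
  have hrp := rad_pos hp hn1
  have hr1 := one_sub_rad_pos hp hn1
  have ho := one_add_pos hp hn1
  have ht := trace_exc hi hn
  have hpos : 0 < 2 * fffDet φ z * (rad (φ z) n * ⟪meanCurv φ z, n⟫ - 1) := by
    rw [← ht]
    exact trace_pos hE hd' hI.1 hI.2
  have hs : 0 < rad (φ z) n * ⟪meanCurv φ z, n⟫ - 1 :=
    (mul_pos_iff_of_pos_left (by positivity)).1 hpos
  have hsq : 4 * fffDet φ z * excDet φ n z ≤
      (2 * fffDet φ z * (rad (φ z) n * ⟪meanCurv φ z, n⟫ - 1)) ^ 2 := by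
    rw [← ht]
    exact trace_sq hE hd'.le
  have hex : excDet φ n z ≤ fffDet φ z * (rad (φ z) n * ⟪meanCurv φ z, n⟫ - 1) ^ 2 := by
    have : 4 * fffDet φ z * excDet φ n z ≤
        4 * fffDet φ z * (fffDet φ z * (rad (φ z) n * ⟪meanCurv φ z, n⟫ - 1) ^ 2) := by
      calc _ ≤ _ := hsq
        _ = _ := by ring
    exact le_of_mul_le_mul_left this (by positivity)
  -- hyperbolic mean curvature
  have hh : ⟪hypCurv φ z, n⟫ - 1 =
      (1 + ⟪φ z, n⟫) * (rad (φ z) n * ⟪meanCurv φ z, n⟫ - 1) := by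
    rw [inner_hypCurv hn]
    have : rad (φ z) n = (1 - ‖φ z‖ ^ 2) / (2 * (1 + ⟪φ z, n⟫)) := rfl
    rw [this]
    field_simp
    ring
  have hh0 : 0 < ⟪hypCurv φ z, n⟫ - 1 := by
    rw [hh]
    exact mul_pos ho hs
  unfold densDir dens0
  rw [max_eq_left hh0.le, hh, abs_of_pos hI.2]
  have hρ : 0 < 1 - ‖φ z‖ ^ 2 := by nlinarith [norm_nonneg (φ z)]
  have hρ2 : 1 - ‖φ z‖ ^ 2 = 2 * rad (φ z) n * (1 + ⟪φ z, n⟫) := by
    have : rad (φ z) n = (1 - ‖φ z‖ ^ 2) / (2 * (1 + ⟪φ z, n⟫)) := rfl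
    rw [this]
    field_simp
  have hsd : 0 < √(fffDet φ z) := Real.sqrt_pos.2 hd
  have hss : √(fffDet φ z) * √(fffDet φ z) = fffDet φ z := Real.mul_self_sqrt hd.le
  unfold hypArea
  rw [hρ2, div_le_iff₀ hsd]
  have e : (rad (φ z) n / (1 - rad (φ z) n)) ^ 3 *
      ((1 + ⟪φ z, n⟫) * (rad (φ z) n * ⟪meanCurv φ z, n⟫ - 1)) ^ 2 *
      (4 * √(fffDet φ z) / (2 * rad (φ z) n * (1 + ⟪φ z, n⟫)) ^ 2) * √(fffDet φ z) =
      rad (φ z) n / (1 - rad (φ z) n) ^ 3 *
        ((√(fffDet φ z) * √(fffDet φ z)) * (rad (φ z) n * ⟪meanCurv φ z, n⟫ - 1) ^ 2) := by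
    field_simp
    ring
  rw [e, hss]
  have : 0 ≤ rad (φ z) n / (1 - rad (φ z) n) ^ 3 := by positivity
  exact mul_le_mul_of_nonneg_left hex this

theorem unit_circle (L : ℂ →ₗᵢ[ℝ] E4) (θ : ℝ) : ‖L ⟨Real.cos θ, Real.sin θ⟩‖ = 1 := by
  rw [L.norm_map]
  have : (⟨Real.cos θ, Real.sin θ⟩ : ℂ) = Complex.exp (θ * Complex.I) := by
    rw [Complex.exp_mul_I]
    apply Complex.ext <;> simp [Complex.cos_ofReal_re, Complex.sin_ofReal_re]
  rw [this, Complex.norm_exp_ofReal_mul_I]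

/-- The horospherical curvature is at most the directed energy. -/
theorem curvAt_le {φ : ℂ → E4} {z : ℂ} (hi : Function.Injective (fderiv ℝ φ z))
    (hp : ‖φ z‖ < 1) : curvAt φ z ≤ dirAt φ z := by
  unfold curvAt dirAt
  refine iSup₂_mono fun L hL => ?_
  refine lintegral_mono fun θ => ENNReal.ofReal_le_ofReal ?_
  exact dens_le hi hp (unit_circle L θ) (hL _)

/-! ### The circle of normal vectors -/

theorem pos_part {c x : ℝ} (hc : 1 ≤ c) (hx : x ≤ 1) :
    (max (c * x - 1) 0) ^ 2 ≤ (c - 1) ^ 2 * (if 0 < x then x ^ 2 else 0) := by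
  split_ifs with h
  · have h1 : max (c * x - 1) 0 ≤ (c - 1) * x := by
      refine max_le ?_ (mul_nonneg (by linarith) h.le)
      nlinarith
    have h2 : 0 ≤ max (c * x - 1) 0 := le_max_right _ _
    calc _ ≤ ((c - 1) * x) ^ 2 := pow_le_pow_left₀ h2 h1 2
      _ = _ := by ring
  · rw [mul_zero, max_eq_right]
    · norm_num
    · nlinarith

theorem circle_le (a b : ℝ) {c : ℝ} (hc : a ^ 2 + b ^ 2 ≤ c ^ 2) (hc0 : 0 ≤ c) :
    ∫⁻ θ in Ico 0 (2 * Real.pi), ENNReal.ofReal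
      ((max (a * Real.cos θ + b * Real.sin θ - 1) 0) ^ 2) ≤
      ENNReal.ofReal (Real.pi / 2 * (max (c - 1) 0) ^ 2) := by
  have hcs : ∀ x y θ : ℝ, (x * Real.cos θ + y * Real.sin θ) ^ 2 ≤ x ^ 2 + y ^ 2 := by
    intro x y θ
    have h1 := Real.sin_sq_add_cos_sq θ
    nlinarith [sq_nonneg (x * Real.sin θ - y * Real.cos θ)]
  set d := √(a ^ 2 + b ^ 2) with hd
  have hd2 : d ^ 2 = a ^ 2 + b ^ 2 := Real.sq_sqrt (by positivity)
  have hd0 : 0 ≤ d := Real.sqrt_nonneg _
  have hdc : d ≤ c := by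
    rw [← hd2] at hc
    exact (pow_le_pow_iff_left₀ hd0 hc0 (by norm_num)).1 hc
  rcases le_or_gt d 1 with h | h
  · have h0 : ∀ θ : ℝ, ENNReal.ofReal ((max (a * Real.cos θ + b * Real.sin θ - 1) 0) ^ 2) = 0 := by
      intro θ
      have h1 := hcs a b θ
      have h2 : a * Real.cos θ + b * Real.sin θ ≤ 1 := by
        have h3 : (a * Real.cos θ + b * Real.sin θ) ^ 2 ≤ 1 := by
          rw [← hd2] at h1
          nlinarith
        nlinarith [sq_nonneg (a * Real.cos θ + b * Real.sin θ - 1)]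
      rw [max_eq_right (by linarith)]
      simp
    simp only [h0, lintegral_zero]
    exact bot_le
  · have hdp : 0 < d := by linarith
    have key : ∀ θ : ℝ, ENNReal.ofReal ((max (a * Real.cos θ + b * Real.sin θ - 1) 0) ^ 2) ≤
        ENNReal.ofReal ((d - 1) ^ 2) * ENNReal.ofReal
          (if 0 < a / d * Real.cos θ + b / d * Real.sin θ then
            (a / d * Real.cos θ + b / d * Real.sin θ) ^ 2 else 0) := by
      intro θ
      rw [← ENNReal.ofReal_mul (by positivity)]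
      apply ENNReal.ofReal_le_ofReal
      have e : a * Real.cos θ + b * Real.sin θ =
          d * (a / d * Real.cos θ + b / d * Real.sin θ) := by
        field_simp
      rw [e]
      refine pos_part h.le ?_
      have h1 := hcs (a / d) (b / d) θ
      have h2 : (a / d) ^ 2 + (b / d) ^ 2 = 1 := by
        rw [div_pow, div_pow, ← add_div, hd2, div_self]
        rw [← hd2]
        positivity
      rw [h2] at h1
      nlinarith [sq_nonneg (a / d * Real.cos θ + b / d * Real.sin θ - 1)]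
    refine (lintegral_mono key).trans ?_
    rw [lintegral_const_mul' _ _ ENNReal.ofReal_ne_top]
    refine (mul_le_mul_right (half_circle _ _ _ _) _).trans ?_
    rw [← ENNReal.ofReal_mul (by positivity)]
    apply ENNReal.ofReal_le_ofReal
    have h2 : (a / d) ^ 2 + (b / d) ^ 2 = 1 := by
      rw [div_pow, div_pow, ← add_div, hd2, div_self]
      rw [← hd2]
      positivity
    rw [h2, max_eq_left (by linarith)]
    have h3 : (d - 1) ^ 2 ≤ (c - 1) ^ 2 := pow_le_pow_left₀ (by linarith) (by linarith) 2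
    nlinarith [Real.pi_pos]

theorem densHyp_nonneg {φ : ℂ → E4} {z : ℂ} (hp : ‖φ z‖ < 1) : 0 ≤ densHyp φ z := by
  have h1 : 0 < 1 - ‖φ z‖ := by linarith
  have h2 := hypArea_nonneg φ z
  unfold densHyp
  positivity

/-- The directed energy is at most `π / 2` times the energy. -/
theorem dirAt_le {φ : ℂ → E4} {z : ℂ} (hp : ‖φ z‖ < 1) :
    dirAt φ z ≤ ENNReal.ofReal (Real.pi / 2) * ENNReal.ofReal (densHyp φ z) := by
  unfold dirAt
  refine iSup₂_le fun L hL => ?_
  set V := hypCurv φ z with hV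
  set a : ℝ := ⟪V, L 1⟫ with ha
  set b : ℝ := ⟪V, L Complex.I⟫ with hb
  have hlin : ∀ θ : ℝ, L ⟨Real.cos θ, Real.sin θ⟩ = Real.cos θ • L 1 + Real.sin θ • L Complex.I := by
    intro θ
    rw [← map_smul, ← map_smul, ← map_add]
    congr 1
    apply Complex.ext <;> simp [Complex.cos_ofReal_re, Complex.sin_ofReal_re]
  have hab : a ^ 2 + b ^ 2 ≤ ‖V‖ ^ 2 := by
    have u1 : ⟪L 1, L 1⟫ = (1 : ℝ) := by
      rw [real_inner_self_eq_norm_sq, L.norm_map]; simp
    have u2 : ⟪L Complex.I, L Complex.I⟫ = (1 : ℝ) := by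
      rw [real_inner_self_eq_norm_sq, L.norm_map]; simp
    have u3 : ⟪L 1, L Complex.I⟫ = (0 : ℝ) := by
      rw [L.inner_map_map]; simp
    have u4 : ⟪L Complex.I, L 1⟫ = (0 : ℝ) := by
      rw [real_inner_comm]; exact u3
    have h0 : 0 ≤ ‖V - (a • L 1 + b • L Complex.I)‖ ^ 2 := by positivity
    rw [← real_inner_self_eq_norm_sq] at h0
    simp only [inner_sub_left, inner_sub_right, inner_add_left, inner_add_right,
      real_inner_smul_left, real_inner_smul_right, u1, u2, u3, u4] at h0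
    rw [real_inner_comm V (L 1), real_inner_comm V (L Complex.I), ← ha, ← hb,
      real_inner_self_eq_norm_sq] at h0
    nlinarith
  set q := ((1 + ‖φ z‖) / (1 - ‖φ z‖)) ^ 3 with hq
  have h1 : 0 < 1 - ‖φ z‖ := by linarith
  have hq0 : 0 ≤ q := by positivity
  have hA := hypArea_nonneg φ z
  have hle : ∀ θ : ℝ, ENNReal.ofReal (densDir φ (L ⟨Real.cos θ, Real.sin θ⟩) z) ≤
      ENNReal.ofReal (q * hypArea φ z) *
        ENNReal.ofReal ((max (a * Real.cos θ + b * Real.sin θ - 1) 0) ^ 2) := by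
    intro θ
    rw [← ENNReal.ofReal_mul (by positivity)]
    apply ENNReal.ofReal_le_ofReal
    unfold densDir
    have hn1 := unit_circle L θ
    have e : ⟪V, L ⟨Real.cos θ, Real.sin θ⟩⟫ = a * Real.cos θ + b * Real.sin θ := by
      rw [hlin, inner_add_right, real_inner_smul_right, real_inner_smul_right]
      ring
    rw [← hV, e]
    have h2 : (rad (φ z) (L ⟨Real.cos θ, Real.sin θ⟩) /
        (1 - rad (φ z) (L ⟨Real.cos θ, Real.sin θ⟩))) ^ 3 ≤ q :=
      pow_le_pow_left₀ (quot_nonneg hp hn1) (quot_le hp hn1) 3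
    calc _ ≤ q * (max (a * Real.cos θ + b * Real.sin θ - 1) 0) ^ 2 * hypArea φ z := by gcongr
      _ = _ := by ring
  refine (lintegral_mono hle).trans ?_
  rw [lintegral_const_mul' _ _ ENNReal.ofReal_ne_top]
  refine (mul_le_mul_right (circle_le a b hab (norm_nonneg _)) _).trans ?_
  rw [← ENNReal.ofReal_mul (by positivity), ← ENNReal.ofReal_mul (by positivity)]
  apply ENNReal.ofReal_le_ofReal
  apply le_of_eq
  unfold densHyp
  rw [← hq, ← hV]
  ring

/-! ### Discs and surfaces -/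

theorem four_pi (m : ℕ) : ENNReal.ofReal (Real.pi / 2) * ENNReal.ofReal (4 * Real.pi * (m + 1)) =
    ENNReal.ofReal (2 * Real.pi ^ 2 * (m + 1)) := by
  have := Real.pi_pos
  rw [← ENNReal.ofReal_mul (by positivity)]
  congr 1
  ring

theorem dir_disc {φ : ℂ → E4} (h : SliceDisc φ) {m : ℕ}
    (hT : ∫⁻ z in ball (0 : ℂ) 1, dirAt φ z < ENNReal.ofReal (2 * Real.pi ^ 2 * (m + 1))) :
    ∫⁻ z in ball (0 : ℂ) 1, curvAt φ z < ENNReal.ofReal (2 * Real.pi ^ 2 * (m + 1)) := by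
  refine lt_of_le_of_lt ?_ hT
  exact setLIntegral_mono' isOpen_ball.measurableSet fun z hz =>
    curvAt_le (h.imm z (ball_subset_closedBall hz)) (h.inside z hz)

theorem hyp_disc {φ : ℂ → E4} (h : SliceDisc φ) {m : ℕ}
    (hT : ∫⁻ z in ball (0 : ℂ) 1, ENNReal.ofReal (densHyp φ z) <
      ENNReal.ofReal (4 * Real.pi * (m + 1))) :
    ∫⁻ z in ball (0 : ℂ) 1, dirAt φ z < ENNReal.ofReal (2 * Real.pi ^ 2 * (m + 1)) := by
  have h1 : ∫⁻ z in ball (0 : ℂ) 1, dirAt φ z ≤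
      ENNReal.ofReal (Real.pi / 2) * ∫⁻ z in ball (0 : ℂ) 1, ENNReal.ofReal (densHyp φ z) := by
    rw [← lintegral_const_mul' _ _ ENNReal.ofReal_ne_top]
    exact setLIntegral_mono' isOpen_ball.measurableSet fun z hz => dirAt_le (h.inside z hz)
  refine lt_of_le_of_lt h1 ?_
  rw [← four_pi]
  refine ENNReal.mul_lt_mul_right ?_ ENNReal.ofReal_ne_top hT
  have := Real.pi_pos
  simp only [ne_eq, ENNReal.ofReal_eq_zero, not_le]
  positivity

theorem hyp_surf {F : Set E4} {m : ℕ}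
    (hT : surfE F < ENNReal.ofReal (4 * Real.pi * (m + 1))) :
    totalCurv F < ENNReal.ofReal (2 * Real.pi ^ 2 * (m + 1)) := by
  simp only [surfE, iInf_lt_iff] at hT
  obtain ⟨φ, U, A, ⟨hall, hcov⟩, hT⟩ := hT
  simp only [totalCurv, iInf_lt_iff]
  refine ⟨φ, U, A, ⟨hall, hcov⟩, ?_⟩
  have h1 : ∑' i, ∫⁻ z in A i, curvAt (φ i) z ≤
      ENNReal.ofReal (Real.pi / 2) * ∑' i, ∫⁻ z in A i, ENNReal.ofReal (densHyp (φ i) z) := by
    rw [← ENNReal.tsum_mul_left]
    refine ENNReal.tsum_le_tsum fun i => ?_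
    rw [← lintegral_const_mul' _ _ ENNReal.ofReal_ne_top]
    refine setLIntegral_mono' (hall i).2.2.1 fun z hz => ?_
    have hz' := (hall i).2.2.2 hz
    exact (curvAt_le ((hall i).1.imm z hz') ((hall i).1.inside z hz')).trans
      (dirAt_le ((hall i).1.inside z hz'))
  refine lt_of_le_of_lt h1 ?_
  rw [← four_pi]
  refine ENNReal.mul_lt_mul_right ?_ ENNReal.ofReal_ne_top hT
  have := Real.pi_pos
  simp only [ne_eq, ENNReal.ofReal_eq_zero, not_le]
  positivity

theorem small_disc {φ : ℂ → E4} (hc : ∀ z ∈ ball (0 : ℂ) 1, ‖hypCurv φ z‖ ≤ 1) :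
    ∫⁻ z in ball (0 : ℂ) 1, ENNReal.ofReal (densHyp φ z) = 0 := by
  rw [setLIntegral_congr_fun (g := fun _ => 0) isOpen_ball.measurableSet]
  · simp
  · intro z hz
    have h1 := hc z hz
    have h2 : max (‖hypCurv φ z‖ - 1) 0 = 0 := max_eq_right (by linarith)
    show ENNReal.ofReal (densHyp φ z) = 0
    unfold densHyp
    rw [h2]
    simp

end Pool.Agent.L0h18.HW
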